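import Mathlib
import Pool.Agent.R430.RB.Cov

/-!
# Random digits in any real base: orthogonality with predictable weights
-/

set_option autoImplicit false

open Finset Filter Topology MeasureTheory ProbabilityTheory
open scoped Real

namespace Pool.Agent.R430.RP

open Pool.Agent.R739.RD Pool.Agent.H534R3.UDist Pool.Agent.R430.RB

/-- the sigma-algebra of the digits at the positions of a finite set -/
def Sig {Ω : Type} (D : ℕ → Ω → ℝ) (S : Finset ℕ) : MeasurableSpace Ω :=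
  ⨆ j ∈ (S : Set ℕ), MeasurableSpace.comap (D j) inferInstance

lemma sig_le {Ω : Type} [m0 : MeasurableSpace Ω] (D : ℕ → Ω → ℝ) (hD : ∀ j, Measurable (D j))
    (S : Finset ℕ) : Sig D S ≤ m0 :=
  iSup₂_le fun j _ => (hD j).comap_le

lemma sig_mono {Ω : Type} (D : ℕ → Ω → ℝ) {S T : Finset ℕ} (h : S ⊆ T) : Sig D S ≤ Sig D T :=
  biSup_mono fun j hj => by exact_mod_cast h (by exact_mod_cast hj)

/-- the centred variables -/
noncomputable def YP {Ω : Type} (D : ℕ → Ω → ℝ) (b : ℝ) (Z : Ω → ℂ) (s : ℝ) (A B : Finset ℕ)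
    (c : ℂ) (ω : Ω) : ℂ := Z ω * (ee (s * SS D b A ω) * (ee (s * SS D b B ω) - c))

lemma measurable_YP {Ω : Type} (m : MeasurableSpace Ω) (D : ℕ → Ω → ℝ) (b : ℝ) (Z : Ω → ℂ)
    (hZ : @Measurable Ω ℂ m _ Z) (s : ℝ)
    (A B : Finset ℕ) (c : ℂ) (hA : ∀ j ∈ A, @Measurable Ω ℝ m _ (D j))
    (hB : ∀ j ∈ B, @Measurable Ω ℝ m _ (D j)) :
    @Measurable Ω ℂ m _ (YP D b Z s A B c) := by
  have h1 : @Measurable Ω ℂ m _ (YY D b 1 s A B c) := @measurable_YY Ω m D b 1 s A B c hA hB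
  have h2 : YP D b Z s A B c = fun ω => Z ω * YY D b 1 s A B c ω := by
    funext ω
    unfold YP YY
    ring
  rw [h2]
  exact hZ.mul h1

lemma norm_YP_le {Ω : Type} (D : ℕ → Ω → ℝ) (b : ℝ) (Z : Ω → ℂ) (hz : ∀ ω, ‖Z ω‖ ≤ 1) (s : ℝ)
    (A B : Finset ℕ) (c : ℂ) (hc : ‖c‖ ≤ 1) (ω : Ω) : ‖YP D b Z s A B c ω‖ ≤ 2 :=
  norm_YY_le D b (Z ω) (hz ω) s A B c hc ω

lemma cov_zeroP {Ω : Type} [MeasurableSpace Ω] (P : Measure Ω) [IsProbabilityMeasure P]
    (D : ℕ → Ω → ℝ) (hD : ∀ j, Measurable (D j)) (hI : iIndepFun D P) (b : ℝ)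
    (T A B A' B' : Finset ℕ) (hA : A ⊆ T) (hB : B ⊆ T) (hA' : A' ⊆ T) (hT : Disjoint T B')
    (Z Z' : Ω → ℂ) (hZ : @Measurable Ω ℂ (Sig D T) _ Z) (hZ' : @Measurable Ω ℂ (Sig D T) _ Z')
    (s s' : ℝ) (c : ℂ) :
    ∫ ω, YP D b Z' s' A' B' (∫ x, ee (s' * SS D b B' x) ∂P) ω *
      (starRingEnd ℂ) (YP D b Z s A B c ω) ∂P = 0 := by
  set c' := ∫ x, ee (s' * SS D b B' x) ∂P with hc'
  set U : Ω → ℂ := fun ω => Z' ω * ee (s' * SS D b A' ω) * (starRingEnd ℂ) (YP D b Z s A B c ω)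
    with hU
  set V : Ω → ℂ := fun ω => ee (s' * SS D b B' ω) - c' with hV
  have e : ∀ ω, YP D b Z' s' A' B' c' ω * (starRingEnd ℂ) (YP D b Z s A B c ω) = U ω * V ω := by
    intro ω
    rw [hU, hV]
    show Z' ω * (ee (s' * SS D b A' ω) * (ee (s' * SS D b B' ω) - c')) * _ = _
    ring
  simp only [e]
  have hm : ∀ j ∈ T, @Measurable Ω ℝ (Sig D T) _ (D j) := fun j hj => meas_sup D T j hj
  have mU : @Measurable Ω ℂ (Sig D T) _ U := by
    have h1 : @Measurable Ω ℂ (Sig D T) _ fun ω => ee (s' * SS D b A' ω) :=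
      measurable_ee.comp ((@measurable_SS Ω (Sig D T) D b A' fun j hj =>
        hm j (hA' hj)).const_mul s')
    have h2 : @Measurable Ω ℂ (Sig D T) _ (YP D b Z s A B c) :=
      measurable_YP (Sig D T) D b Z hZ s A B c (fun j hj => hm j (hA hj))
        (fun j hj => hm j (hB hj))
    have h3 : @Measurable Ω ℂ (Sig D T) _ fun ω => (starRingEnd ℂ) (YP D b Z s A B c ω) :=
      (Complex.continuous_conj.measurable).comp h2
    exact (hZ'.mul h1).mul h3
  have mU' : Measurable U := mU.mono (sig_le D hD T) le_rfl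
  have mV : ∀ (m : MeasurableSpace Ω), (∀ j ∈ B', @Measurable Ω ℝ m _ (D j)) →
      @Measurable Ω ℂ m _ V := by
    intro m hm
    have h1 : @Measurable Ω ℂ m _ fun ω => ee (s' * SS D b B' ω) :=
      measurable_ee.comp ((@measurable_SS Ω m D b B' fun j hj => hm j hj).const_mul s')
    exact h1.sub_const c'
  have hind : IndepFun U V P := indep_of P D hD hI T B' hT U V
    mU (mV _ fun j hj => meas_sup D B' j hj)
  have h1 := hind.integral_fun_mul_eq_mul_integral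
    mU'.aestronglyMeasurable (mV _ fun j _ => hD j).aestronglyMeasurable
  have h2 : ∫ ω, V ω ∂P = 0 := by
    rw [hV]
    have hi : Integrable (fun ω => ee (s' * SS D b B' ω)) P :=
      integrable_ee P _ ((measurable_SS D b B' fun j _ => hD j).const_mul s')
    rw [integral_sub hi (integrable_const _), integral_const]
    simp [hc']
  rw [h1, h2, mul_zero]

end Pool.Agent.R430.RP
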