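import Mathlib
import Pool.Agent.R430.RB.Main
import Pool.Agent.R430.RB.Slln
import Pool.Agent.R430.RG.Block
import Pool.Agent.R430.RP.Cov

/-!
# Random digits and lacunary sequences, predictable weights: the Weyl averages tend to zero
-/

set_option autoImplicit false

open Finset Filter Topology MeasureTheory ProbabilityTheory
open scoped Real

namespace Pool.Agent.R430.RP

open Pool.Agent.R739.RD Pool.Agent.H534R3.UDist Pool.Agent.R430.RB Pool.Agent.R430.RG

theorem stage {Ω : Type} [MeasurableSpace Ω] (P : Measure Ω)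
    [IsProbabilityMeasure P] (b : ℝ) (hb : 1 < b) (s σ x : ℕ → ℝ) (mm : ℕ → ℕ)
    (hs : Pos b s σ x mm) (hUD : UD x) (L : Finset ℝ) (hL : ∀ l ∈ L, l ≠ 0) (c : ℝ) (hc : 0 < c)
    (hc2 : c ≤ 1 / 2) (M : ℝ) (D : ℕ → Ω → ℝ) (hD : ∀ j, Measurable (D j)) (hI : iIndepFun D P)
    (hM : ∀ j ω, |D j ω| ≤ M) (hT : ∀ j, TwoAt P (D j) L c) (η : ℝ) (hη : η ≠ 0)
    (ε : ℝ) (hε : 0 < ε) :
    ∃ K0 : ℕ, ∀ Z : ℕ → Ω → ℂ, (∀ n, @Measurable Ω ℂ (Sig D (range (mm n - K0))) _ (Z n)) →
      (∀ n ω, ‖Z n ω‖ ≤ 1) → ∀ᵐ ω ∂P, ∀ᶠ N : ℕ in atTop, ‖∑ n ∈ range N, Z n ω *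
        ee (η * s n * ∑' j, D j ω / b ^ (j + 1))‖ ≤ 3 * ε * N := by
  have hb0 : 0 < b := by linarith
  have hbm : 0 < b - 1 := by linarith
  have hM0 : 0 ≤ M := by
    obtain ⟨ω⟩ : Nonempty Ω := by
      by_contra h
      rw [not_nonempty_iff] at h
      have h1 := measure_univ (μ := P)
      rw [Set.univ_eq_empty_iff.2 h, measure_empty] at h1
      exact zero_ne_one h1
    exact (abs_nonneg _).trans (hM 0 ω)
  obtain ⟨K0, hK0⟩ := avg_smallG b hb s σ x mm hs hUD L hL c hc hc2 η hη ε hε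
  -- the cut
  obtain ⟨W, hW⟩ : ∃ W : ℕ, 2 * π * (|η| * b * M / (b ^ W * (b - 1))) ≤ ε := by
    have h1 : Tendsto (fun W : ℕ => ε * (b - 1) * b ^ W) atTop atTop :=
      (tendsto_pow_atTop_atTop_of_one_lt hb).const_mul_atTop (by positivity)
    obtain ⟨W, hW⟩ := (h1.eventually_ge_atTop (2 * π * (|η| * b * M))).exists
    refine ⟨W, ?_⟩
    rw [← mul_div_assoc, div_le_iff₀ (by positivity)]
    linarith
  have hK := hK0 P D hD hI hT W
  refine ⟨K0, fun Z hZm hz => ?_⟩
  obtain ⟨A, hA⟩ : ∃ A : ℕ → Finset ℕ, A = fun n => range (mm n - K0) := ⟨_, rfl⟩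
  obtain ⟨B, hB⟩ : ∃ B : ℕ → Finset ℕ, B = fun n => Ico (mm n - K0) (mm n + W) := ⟨_, rfl⟩
  obtain ⟨g, hg⟩ : ∃ g : ℕ → ℂ, g = fun n => ∫ x, ee (η * s n * SS D b (B n) x) ∂P := ⟨_, rfl⟩
  have hg1 : ∀ n, ‖g n‖ ≤ 1 := fun n => by
    rw [hg]
    exact norm_int_le P _
  obtain ⟨Y, hY⟩ : ∃ Y : ℕ → Ω → ℂ, Y = fun n => YP D b (Z n) (η * s n) (A n) (B n) (g n) :=
    ⟨_, rfl⟩
  obtain ⟨H, hH⟩ := hs.gap (W + K0)
  have hYs := slln P Y H (fun n => by
      rw [hY]
      exact measurable_YP _ D b _ ((hZm n).mono (sig_le D hD _) le_rfl) _ _ _ _ (fun j _ => hD j)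
        fun j _ => hD j)
    (fun n ω => by
      rw [hY]
      exact norm_YP_le D b _ (hz n) _ _ _ _ (hg1 n) ω)
    (fun m n hmn => by
      have h1 := hH m n hmn
      rw [hY]
      simp only [hg]
      refine cov_zeroP P D hD hI b (A n) (A m) (B m) (A n) (B n) ?_ ?_ Subset.rfl ?_ _ _
        ((hZm m).mono (sig_mono D ?_) le_rfl) (by rw [hA]; exact hZm n) _ _ _
      · rw [hA]
        exact range_subset_range.2 (by omega)
      · rw [hA, hB]
        intro j hj
        rw [mem_Ico] at hj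
        rw [mem_range]
        omega
      · rw [hA, hB]
        rw [Finset.disjoint_left]
        intro j hj1 hj2
        rw [mem_range] at hj1
        rw [mem_Ico] at hj2
        omega
      · rw [hA]
        exact range_subset_range.2 (by omega))
  filter_upwards [hYs] with ω hω
  have h1 : ∀ᶠ N : ℕ in atTop, ‖∑ n ∈ range N, Y n ω‖ / N < ε := hω.eventually (gt_mem_nhds hε)
  filter_upwards [h1, hK, eventually_gt_atTop 0] with N hN1 hN2 hN3
  have hN0 : (0 : ℝ) < N := by exact_mod_cast hN3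
  rw [div_lt_iff₀ hN0] at hN1
  obtain ⟨ξ, hξ⟩ : ∃ ξ : ℝ, ξ = ∑' j, D j ω / b ^ (j + 1) := ⟨_, rfl⟩
  rw [← hξ]
  have hdec : ∀ n, Z n ω * ee (η * s n * ξ) = Y n ω +
      (Z n ω * (ee (η * s n * SS D b (A n) ω) * g n) +
      Z n ω * (ee (η * s n * ξ) - ee (η * s n * SS D b (range (mm n + W)) ω))) := by
    intro n
    have h2 : SS D b (range (mm n + W)) ω = SS D b (A n) ω + SS D b (B n) ω := by
      rw [hA, hB]
      unfold SS
      exact (Finset.sum_range_add_sum_Ico _ (by omega)).symm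
    rw [h2, mul_add (η * s n), ee_add, hY]
    show _ = Z n ω * (ee (η * s n * SS D b (A n) ω) * (ee (η * s n * SS D b (B n) ω) - g n)) + _
    ring
  have htail : ∀ n, ‖Z n ω * (ee (η * s n * ξ) -
      ee (η * s n * SS D b (range (mm n + W)) ω))‖ ≤ ε := by
    intro n
    rw [norm_mul]
    have h2 := ee_sub_le (η * s n * ξ) (η * s n * SS D b (range (mm n + W)) ω)
    have h3 := tail_bound b hb M (fun j => D j ω) (fun j => hM j ω) (mm n + W)
    rw [← hξ] at h3
    have h4 : |η * s n * ξ - η * s n * SS D b (range (mm n + W)) ω| ≤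
        |η| * b * M / (b ^ W * (b - 1)) := by
      rw [← mul_sub, abs_mul, abs_mul]
      have h5 : |s n| ≤ b ^ (mm n) * b := by
        rw [hs.eq n, abs_mul]
        have h6 : |σ n| = 1 := by
          rcases hs.sign n with h | h <;> rw [h] <;> simp
        rw [h6, one_mul, abs_of_pos (by positivity)]
        apply mul_le_mul_of_nonneg_left _ (by positivity)
        calc b ^ (Int.fract (x n)) ≤ b ^ (1 : ℝ) :=
              Real.rpow_le_rpow_of_exponent_le hb.le (Int.fract_lt_one _).le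
          _ = b := Real.rpow_one b
      calc |η| * |s n| * |ξ - SS D b (range (mm n + W)) ω|
          ≤ |η| * (b ^ (mm n) * b) * (M / (b ^ (mm n + W) * (b - 1))) := by
            apply mul_le_mul (mul_le_mul_of_nonneg_left h5 (abs_nonneg _)) h3 (abs_nonneg _)
              (by positivity)
        _ = |η| * b * M / (b ^ W * (b - 1)) := by
            rw [pow_add]
            field_simp
    calc ‖Z n ω‖ * ‖ee (η * s n * ξ) - ee (η * s n * SS D b (range (mm n + W)) ω)‖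
        ≤ 1 * (2 * π * (|η| * b * M / (b ^ W * (b - 1)))) := by
          apply mul_le_mul (hz n ω) _ (norm_nonneg _) zero_le_one
          exact h2.trans (mul_le_mul_of_nonneg_left h4 (by positivity))
      _ ≤ ε := by rw [one_mul]; exact hW
  calc ‖∑ n ∈ range N, Z n ω * ee (η * s n * ξ)‖
      = ‖∑ n ∈ range N, Y n ω + (∑ n ∈ range N, Z n ω * (ee (η * s n * SS D b (A n) ω) * g n) +
        ∑ n ∈ range N, Z n ω * (ee (η * s n * ξ) -
          ee (η * s n * SS D b (range (mm n + W)) ω)))‖ := by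
        rw [← Finset.sum_add_distrib, ← Finset.sum_add_distrib]
        congr 1
        exact Finset.sum_congr rfl fun n _ => hdec n
    _ ≤ ‖∑ n ∈ range N, Y n ω‖ + (‖∑ n ∈ range N, Z n ω * (ee (η * s n * SS D b (A n) ω) * g n)‖ +
        ‖∑ n ∈ range N, Z n ω * (ee (η * s n * ξ) -
          ee (η * s n * SS D b (range (mm n + W)) ω))‖) :=
        (norm_add_le _ _).trans (add_le_add le_rfl (norm_add_le _ _))
    _ ≤ ε * N + (ε * N + ε * N) := by
        refine add_le_add hN1.le (add_le_add ?_ ?_)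
        · refine (norm_sum_le _ _).trans (le_trans ?_ hN2)
          refine Finset.sum_le_sum fun n _ => ?_
          rw [norm_mul, norm_mul, norm_ee, one_mul, hg, hB]
          calc ‖Z n ω‖ * ‖∫ x, ee (η * s n * SS D b (Ico (mm n - K0) (mm n + W)) x) ∂P‖
              ≤ 1 * ‖∫ x, ee (η * s n * SS D b (Ico (mm n - K0) (mm n + W)) x) ∂P‖ :=
                mul_le_mul_of_nonneg_right (hz n ω) (norm_nonneg _)
            _ = _ := one_mul _
        · refine (norm_sum_le _ _).trans ?_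
          calc _ ≤ ∑ n ∈ range N, ε := Finset.sum_le_sum fun n _ => htail n
            _ = ε * N := by rw [sum_const, nsmul_eq_mul, card_range]; ring
    _ = 3 * ε * N := by ring

/-- **The Weyl averages with predictable weights tend to zero almost surely.** -/
theorem ae_weylP {Ω : Type} [MeasurableSpace Ω] (P : Measure Ω)
    [IsProbabilityMeasure P] (b : ℝ) (hb : 1 < b) (s σ x : ℕ → ℝ) (mm : ℕ → ℕ)
    (hs : Pos b s σ x mm) (hUD : UD x) (L : Finset ℝ) (hL : ∀ l ∈ L, l ≠ 0) (c : ℝ) (hc : 0 < c)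
    (hc2 : c ≤ 1 / 2) (M : ℝ) (D : ℕ → Ω → ℝ) (hD : ∀ j, Measurable (D j)) (hI : iIndepFun D P)
    (hM : ∀ j ω, |D j ω| ≤ M) (hT : ∀ j, TwoAt P (D j) L c) (η : ℝ) (hη : η ≠ 0)
    (Z : ℕ → Ω → ℂ)
    (hZ : ∀ K0 : ℕ, ∃ n3 : ℕ, ∀ n, n3 ≤ n →
      @Measurable Ω ℂ (Sig D (range (mm n - K0))) _ (Z n)) (hz : ∀ n ω, ‖Z n ω‖ ≤ 1) :
    ∀ᵐ ω ∂P, Tendsto (fun N : ℕ => ‖∑ n ∈ range N, Z n ω *
      ee (η * s n * ∑' j, D j ω / b ^ (j + 1))‖ / N) atTop (𝓝 0) := by
  have key : ∀ q : ℕ, ∀ᵐ ω ∂P, ∀ᶠ N : ℕ in atTop, ‖∑ n ∈ range N, Z n ω *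
      ee (η * s n * ∑' j, D j ω / b ^ (j + 1))‖ ≤ 4 * (1 / ((q : ℝ) + 1)) * N := by
    intro q
    obtain ⟨ε, hεd⟩ : ∃ ε : ℝ, ε = 1 / ((q : ℝ) + 1) := ⟨_, rfl⟩
    have hε : 0 < ε := by rw [hεd]; positivity
    rw [← hεd]
    obtain ⟨K0, hK0⟩ := stage P b hb s σ x mm hs hUD L hL c hc hc2 M D hD hI hM hT η hη ε hε
    obtain ⟨n3, hn3⟩ := hZ K0
    have h1 := hK0 (fun n ω => if n < n3 then 0 else Z n ω) (fun n => by
        by_cases hn : n < n3
        · simp only [if_pos hn]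
          exact measurable_const
        · simp only [if_neg hn]
          exact hn3 n (by omega))
      (fun n ω => by
        show ‖if n < n3 then (0 : ℂ) else Z n ω‖ ≤ 1
        split_ifs
        · simp
        · exact hz n ω)
    have h2 : ∀ᶠ N : ℕ in atTop, (n3 : ℝ) ≤ ε * N := by
      have h3 : Tendsto (fun N : ℕ => ε * (N : ℝ)) atTop atTop :=
        tendsto_natCast_atTop_atTop.const_mul_atTop hε
      exact h3.eventually_ge_atTop _
    filter_upwards [h1] with ω hω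
    filter_upwards [hω, h2] with N hN1 hN2
    obtain ⟨ξ, hξ⟩ : ∃ ξ : ℝ, ξ = ∑' j, D j ω / b ^ (j + 1) := ⟨_, rfl⟩
    rw [← hξ] at hN1 ⊢
    have e : ∑ n ∈ range N, Z n ω * ee (η * s n * ξ) =
        ∑ n ∈ range N, (if n < n3 then 0 else Z n ω) * ee (η * s n * ξ) +
        ∑ n ∈ range N, (if n < n3 then Z n ω * ee (η * s n * ξ) else 0) := by
      rw [← Finset.sum_add_distrib]
      refine Finset.sum_congr rfl fun n _ => ?_
      split_ifs <;> ring
    have h4 : ‖∑ n ∈ range N, (if n < n3 then Z n ω * ee (η * s n * ξ) else 0)‖ ≤ n3 := by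
      refine (norm_sum_le _ _).trans ?_
      have h5 : ∀ n ∈ range N, ‖(if n < n3 then Z n ω * ee (η * s n * ξ) else 0)‖ ≤
          if n < n3 then (1 : ℝ) else 0 := by
        intro n _
        split_ifs
        · rw [norm_mul, norm_ee, mul_one]
          exact hz n ω
        · simp
      refine (Finset.sum_le_sum h5).trans ?_
      rw [← Finset.sum_filter, sum_const, nsmul_eq_mul, mul_one]
      have h6 : ((range N).filter fun n => n < n3) ⊆ range n3 := by
        intro n hn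
        rw [mem_filter] at hn
        exact mem_range.2 hn.2
      have h7 := Finset.card_le_card h6
      rw [card_range] at h7
      exact_mod_cast h7
    rw [e]
    calc _ ≤ ‖∑ n ∈ range N, (if n < n3 then 0 else Z n ω) * ee (η * s n * ξ)‖ +
          ‖∑ n ∈ range N, (if n < n3 then Z n ω * ee (η * s n * ξ) else 0)‖ := norm_add_le _ _
      _ ≤ 3 * ε * N + ε * N := add_le_add hN1 (h4.trans hN2)
      _ = 4 * ε * N := by ring
  filter_upwards [ae_all_iff.2 key] with ω hω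
  rw [Metric.tendsto_atTop]
  intro ε hε
  obtain ⟨q, hq⟩ := exists_nat_one_div_lt (show 0 < ε / 4 by positivity)
  obtain ⟨N0, hN0⟩ := eventually_atTop.1 (hω q)
  refine ⟨max N0 1, fun N hN => ?_⟩
  have hN1 : N0 ≤ N := (le_max_left _ _).trans hN
  have hN2 : 1 ≤ N := (le_max_right _ _).trans hN
  have hNp : (0 : ℝ) < N := by exact_mod_cast hN2
  rw [Real.dist_eq, sub_zero, abs_of_nonneg (by positivity), div_lt_iff₀ hNp]
  refine lt_of_le_of_lt (hN0 N hN1) ?_
  nlinarith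

end Pool.Agent.R430.RP
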