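import Mathlib
import Pool.Agent.R430.RP.Main
import Pool.Agent.R430.RG.Concl

/-!
# Random digits and lacunary sequences with predictable weights
-/

set_option autoImplicit false

open Finset Filter Topology MeasureTheory ProbabilityTheory
open scoped Real

namespace Pool.Agent.R430.RP

open Pool.Agent.R739.RD Pool.Agent.H534R3.UDist Pool.Agent.R430.RB Pool.Agent.R430.RG

/-- the sigma-algebra of the digits `D j` with `j ≤ y` -/
def Before {Ω : Type} (D : ℕ → Ω → ℝ) (y : ℝ) : MeasurableSpace Ω :=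
  ⨆ (j : ℕ) (_ : (j : ℝ) ≤ y), MeasurableSpace.comap (D j) inferInstance

lemma before_mono {Ω : Type} (D : ℕ → Ω → ℝ) {y y' : ℝ} (h : y ≤ y') :
    Before D y ≤ Before D y' :=
  iSup₂_le fun j hj => le_iSup₂_of_le j (hj.trans h) le_rfl

/-- lacunary sequences have positions and mantissas -/
theorem exists_posP (hM : S_MOD) (b : ℝ) (hb : 1 < b) (s : ℕ → ℝ) (hs : LacUD b s) :
    ∃ (s' σ x : ℕ → ℝ) (mm : ℕ → ℕ) (n2 : ℕ), Pos b s' σ x mm ∧ UD x ∧
      (∀ n, n2 ≤ n → s n = s' n) ∧ (∀ n, n2 ≤ n → x n = Real.log |s n| / Real.log b) ∧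
      (∀ n, mm n = ⌊x n⌋₊) ∧ ∀ n, 0 ≤ x n := by
  classical
  obtain ⟨⟨q, hq1, hq⟩, hUD⟩ := hs
  obtain ⟨n1, hn1⟩ := eventually_atTop.1 hq
  have hb0 : 0 < b := by linarith
  have hlb : 0 < Real.log b := Real.log_pos hb
  have hlq : 0 < Real.log q := Real.log_pos hq1
  have hgrow : ∀ m, n1 ≤ m → ∀ k : ℕ, q ^ k * |s m| ≤ |s (m + k)| := by
    intro m hm k
    induction k with
    | zero => simp
    | succ k ih =>
      have h1 := (hn1 (m + k) (by omega)).2
      calc q ^ (k + 1) * |s m| = q * (q ^ k * |s m|) := by rw [pow_succ]; ring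
        _ ≤ q * |s (m + k)| := mul_le_mul_of_nonneg_left ih (by linarith)
        _ ≤ |s (m + (k + 1))| := h1
  obtain ⟨k1, hk1⟩ : ∃ k1 : ℕ, ∀ k, k1 ≤ k → 1 ≤ |s (n1 + k)| := by
    have h1 : 0 < |s n1| := (hn1 n1 le_rfl).1
    have h2 : Tendsto (fun k : ℕ => q ^ k * |s n1|) atTop atTop :=
      (tendsto_pow_atTop_atTop_of_one_lt hq1).atTop_mul_const h1
    obtain ⟨k1, hk1⟩ := eventually_atTop.1 (h2.eventually_ge_atTop 1)
    exact ⟨k1, fun k hk => (hk1 k hk).trans (hgrow n1 le_rfl k)⟩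
  obtain ⟨n2, hn2d⟩ : ∃ n2, n2 = n1 + k1 := ⟨_, rfl⟩
  have hone : ∀ n, n2 ≤ n → 1 ≤ |s n| := by
    intro n hn
    have := hk1 (n - n1) (by omega)
    rwa [show n1 + (n - n1) = n by omega] at this
  obtain ⟨x, hxd⟩ : ∃ x : ℕ → ℝ, x = fun n => if n < n2 then 0 else
      Real.log |s n| / Real.log b := ⟨_, rfl⟩
  have hx0 : ∀ n, 0 ≤ x n := by
    intro n
    rw [hxd]
    show 0 ≤ if n < n2 then 0 else Real.log |s n| / Real.log b
    split_ifs with h
    · exact le_rfl
    · exact div_nonneg (Real.log_nonneg (hone n (by omega))) hlb.le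
  have hxlt : ∀ n, n < n2 → x n = 0 := by
    intro n hn
    rw [hxd]
    show (if n < n2 then 0 else Real.log |s n| / Real.log b) = 0
    rw [if_pos hn]
  have hxge : ∀ n, n2 ≤ n → x n = Real.log |s n| / Real.log b := by
    intro n hn
    rw [hxd]
    show (if n < n2 then 0 else Real.log |s n| / Real.log b) = _
    rw [if_neg (by omega)]
  have hstep : ∀ m, n2 ≤ m → ∀ k : ℕ, x m + k * (Real.log q / Real.log b) ≤ x (m + k) := by
    intro m hm k
    rw [hxge m hm, hxge (m + k) (by omega)]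
    have h1 := hgrow m (by omega) k
    have h2 : 0 < |s m| := by linarith [hone m hm]
    have h3 : Real.log (q ^ k * |s m|) ≤ Real.log |s (m + k)| :=
      Real.log_le_log (by positivity) h1
    rw [Real.log_mul (by positivity) h2.ne', Real.log_pow] at h3
    rw [← mul_div_assoc, ← add_div]
    apply div_le_div_of_nonneg_right _ hlb.le
    linarith
  refine ⟨fun n => if n < n2 then 1 else s n, fun n => if n < n2 then 1 else
    if 0 ≤ s n then 1 else -1, x, fun n => ⌊x n⌋₊, n2, ⟨?_, ?_, ?_⟩, ?_, ?_, hxge,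
    fun _ => rfl, hx0⟩
  · intro n
    show (if n < n2 then (1 : ℝ) else if 0 ≤ s n then 1 else -1) = 1 ∨ _ = _
    split_ifs <;> simp
  · intro n
    have h0 : x n = (⌊x n⌋₊ : ℝ) + Int.fract (x n) := by
      rw [natCast_floor_eq_intCast_floor (hx0 n)]
      exact (Int.floor_add_fract _).symm
    have h1 : b ^ (⌊x n⌋₊) * b ^ (Int.fract (x n)) = b ^ (x n) := by
      conv_rhs => rw [h0]
      rw [Real.rpow_add hb0, Real.rpow_natCast]
    show (if n < n2 then (1 : ℝ) else s n) = (if n < n2 then (1 : ℝ) else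
      if 0 ≤ s n then 1 else -1) * (b ^ (⌊x n⌋₊) * b ^ (Int.fract (x n)))
    rw [h1]
    by_cases hn : n < n2
    · rw [if_pos hn, if_pos hn, hxlt n hn, Real.rpow_zero, one_mul]
    · rw [if_neg hn, if_neg hn, hxge n (by omega)]
      have h2 : 0 < |s n| := by linarith [hone n (by omega)]
      have h3 : b ^ (Real.log |s n| / Real.log b) = |s n| := by
        rw [Real.rpow_def_of_pos hb0, mul_div_cancel₀ _ hlb.ne', Real.exp_log h2]
      rw [h3]
      split_ifs with h4
      · rw [abs_of_nonneg h4, one_mul]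
      · rw [abs_of_neg (by linarith)]
        ring
  · intro R
    obtain ⟨H1, hH1⟩ := exists_nat_ge (((R : ℝ) + 1) / (Real.log q / Real.log b))
    rw [div_le_iff₀ (by positivity)] at hH1
    refine ⟨n2 + H1, fun m n hmn => ?_⟩
    show ⌊x m⌋₊ + R ≤ ⌊x n⌋₊
    rw [← Nat.floor_add_natCast (hx0 m)]
    apply Nat.floor_mono
    have hl : 0 < Real.log q / Real.log b := by positivity
    rcases lt_or_ge m n2 with hm | hm
    · rw [hxlt m hm, zero_add]
      have h1 := hstep n2 le_rfl (n - n2)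
      rw [show n2 + (n - n2) = n by omega] at h1
      have h2 : (H1 : ℝ) ≤ ((n - n2 : ℕ) : ℝ) := by
        have : H1 ≤ n - n2 := by omega
        exact_mod_cast this
      have h3 := hx0 n2
      nlinarith
    · have h1 := hstep m hm (n - m)
      rw [show m + (n - m) = n by omega] at h1
      have h2 : (H1 : ℝ) ≤ ((n - m : ℕ) : ℝ) := by
        have : H1 ≤ n - m := by omega
        exact_mod_cast this
      nlinarith
  · refine hM _ x ?_ hUD
    filter_upwards [eventually_ge_atTop n2] with n hn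
    exact (hxge n hn).symm
  · intro n hn
    show s n = if n < n2 then (1 : ℝ) else s n
    rw [if_neg (by omega)]

/-- **The Weyl averages of lacunary sequences with predictable weights tend to zero.** -/
theorem weyl_lacP (hM : S_MOD) {Ω : Type} [MeasurableSpace Ω] (P : Measure Ω)
    [IsProbabilityMeasure P] (b : ℝ) (hb : 1 < b) (D : ℕ → Ω → ℝ) (hD : RB.Digits P D)
    (s : ℕ → ℝ) (hs : LacUD b s) (η : ℝ) (hη : η ≠ 0) (κ : ℝ) (hκ : κ < 1) (Z : ℕ → Ω → ℂ)
    (hZ : ∀ᶠ n : ℕ in atTop,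
      @Measurable Ω ℂ (Before D (κ * (Real.log |s n| / Real.log b))) _ (Z n))
    (hz : ∀ n ω, ‖Z n ω‖ ≤ 1) :
    ∀ᵐ ω ∂P, Tendsto (fun N : ℕ => ‖∑ n ∈ Icc 1 N, Z n ω *
      ee (η * s n * ∑' j, D j ω / b ^ (j + 1))‖ / N) atTop (𝓝 0) := by
  obtain ⟨M, hDM⟩ := hD.bdd
  obtain ⟨L, c, hc, hat⟩ := hD.atoms
  obtain ⟨s', σ, x, mm, n2, hpos, hUD, heq, hx, hmm, hx0⟩ := exists_posP hM b hb s hs
  obtain ⟨n1, hn1⟩ := eventually_atTop.1 hZ
  have hpred : ∀ K0 : ℕ, ∃ n3 : ℕ, ∀ n, n3 ≤ n →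
      @Measurable Ω ℂ (Sig D (range (mm n - K0))) _ (Z n) := by
    intro K0
    obtain ⟨R, hR⟩ := exists_nat_ge (((K0 : ℝ) + 1) / (1 - κ))
    have hκ' : 0 < 1 - κ := by linarith
    rw [div_le_iff₀ hκ'] at hR
    obtain ⟨H, hH⟩ := hpos.gap R
    refine ⟨max H (max n1 n2), fun n hn => ?_⟩
    have h1 : H ≤ n := (le_max_left _ _).trans hn
    have h2 : n1 ≤ n := ((le_max_left _ _).trans (le_max_right _ _)).trans hn
    have h3 : n2 ≤ n := ((le_max_right _ _).trans (le_max_right _ _)).trans hn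
    refine (hn1 n h2).mono ?_ le_rfl
    rw [← hx n h3]
    have h4 : R ≤ mm n := by
      have := hH 0 n (by omega)
      omega
    have h5 : (R : ℝ) ≤ x n := by
      have h6 : (mm n : ℝ) ≤ x n := by
        rw [hmm n]
        exact Nat.floor_le (hx0 n)
      have h7 : (R : ℝ) ≤ mm n := by exact_mod_cast h4
      linarith
    refine iSup₂_le fun j hj => ?_
    have h8 : j + K0 + 1 ≤ mm n := by
      rw [hmm n]
      apply Nat.le_floor
      push_cast
      nlinarith
    exact le_iSup₂_of_le (f := fun j (_ : j ∈ ((range (mm n - K0) : Finset ℕ) : Set ℕ)) =>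
      MeasurableSpace.comap (D j) inferInstance) j
      (by rw [Finset.mem_coe, mem_range]; omega) le_rfl
  have h1 := ae_weylP P b hb s' σ x mm hpos hUD
    (L.filter fun l => l ≠ 0) (fun l hl => (Finset.mem_filter.1 hl).2) (min c (1 / 2))
    (by positivity) (min_le_right _ _) M D hD.meas hD.indep hDM (fun j => by
      obtain ⟨x, l, hl, hl0, h1, h2⟩ := hat j
      exact ⟨x, l, Finset.mem_filter.2 ⟨hl, hl0⟩, (min_le_left _ _).trans h1,
        (min_le_left _ _).trans h2⟩) η hη Z hpred hz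
  filter_upwards [h1] with ω hω
  refine avg_mod _ (fun n => Z n ω * ee (η * s' n * ∑' j, D j ω / b ^ (j + 1))) (fun n => ?_)
    (fun n => ?_) n2 (fun n hn => ?_) hω
  · rw [norm_mul, norm_ee, mul_one]
    exact hz n ω
  · rw [norm_mul, norm_ee, mul_one]
    exact hz n ω
  · rw [heq n hn]

end Pool.Agent.R430.RP
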