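import Mathlib
import Pool.Agent.R430.RP.Lac

/-!
# Random digits and lacunary sequences with predictable weights: conclusions
-/

set_option autoImplicit false

open Finset Filter Topology MeasureTheory ProbabilityTheory
open scoped Real

namespace Pool.Agent.R430.RP

open Pool.Agent.R739.RD Pool.Agent.H534R3.UDist Pool.Agent.R430.RB Pool.Agent.R430.RG

/-- the conclusions for the sequence `s n`, with weights and shifts depending on the digits `D j`
with `j ≤ κ log |s n| / log b`, `κ < 1` -/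
def SeqOf {Ω : Type} [MeasurableSpace Ω] (P : Measure Ω) (b : ℝ) (D : ℕ → Ω → ℝ) (ξ : Ω → ℝ)
    (s : ℕ → ℝ) : Prop := ∀ κ : ℝ, κ < 1 →
  (∀ η : ℝ, η ≠ 0 → ∀ Z : ℕ → Ω → ℂ,
    (∀ n, Measurable[Before D (κ * (Real.log |s n| / Real.log b))] (Z n)) →
    (∀ n ω, ‖Z n ω‖ ≤ 1) → ∀ᵐ ω ∂P, Tendsto (fun N : ℕ => (∑ n ∈ Icc 1 N, Z n ω *
      Complex.exp (2 * π * Complex.I * (η * ξ ω * s n : ℝ))) / (N : ℂ)) atTop (𝓝 0)) ∧
  (∀ η : ℝ, η ≠ 0 → ∀ θ : ℕ → Ω → ℝ,
    (∀ n, Measurable[Before D (κ * (Real.log |s n| / Real.log b))] (θ n)) →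
    ∀ᵐ ω ∂P, Equi fun n => η * ξ ω * s n + θ n ω) ∧
  (∀ (m : ℕ) (η : Fin m → ℝ), LinearIndependent ℚ η → ∀ θ : ℕ → Fin m → Ω → ℝ,
    (∀ n i, Measurable[Before D (κ * (Real.log |s n| / Real.log b))] (θ n i)) →
    ∀ᵐ ω ∂P, EquiTorus fun n i => η i * ξ ω * s n + θ n i ω)

lemma meas_ee {Ω : Type} (m : MeasurableSpace Ω) (f : Ω → ℝ) (hf : @Measurable Ω ℝ m _ f)
    (h : ℝ) : @Measurable Ω ℂ m _ fun ω => ee (h * f ω) :=
  measurable_ee.comp (hf.const_mul h)

lemma meas_ee_sum {Ω : Type} (m : MeasurableSpace Ω) {d : ℕ} (f : Fin d → Ω → ℝ)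
    (hf : ∀ i, @Measurable Ω ℝ m _ (f i)) (k : Fin d → ℤ) :
    @Measurable Ω ℂ m _ fun ω => ee (∑ i, k i * f i ω) :=
  measurable_ee.comp (Finset.measurable_fun_sum _ fun i _ => (hf i).const_mul (k i : ℝ))

theorem seqOf_of {Ω : Type} [MeasurableSpace Ω] (P : Measure Ω)
    [IsProbabilityMeasure P] (b : ℝ) (D : ℕ → Ω → ℝ) (ξ : Ω → ℝ) (s : ℕ → ℝ)
    (H : ∀ κ : ℝ, κ < 1 → ∀ Z : ℕ → Ω → ℂ,
      (∀ n, Measurable[Before D (κ * (Real.log |s n| / Real.log b))] (Z n)) →
      (∀ n ω, ‖Z n ω‖ ≤ 1) → ∀ a : ℝ, a ≠ 0 →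
      ∀ᵐ ω ∂P, Tendsto (fun N : ℕ => ‖∑ n ∈ Icc 1 N, Z n ω * ee (a * s n * ξ ω)‖ / N) atTop
        (𝓝 0)) : SeqOf P b D ξ s := by
  intro κ hκ
  refine ⟨?_, ?_, ?_⟩
  · intro η hη Z hZ hz
    filter_upwards [H κ hκ Z hZ hz η hη] with ω hω
    rw [tendsto_zero_iff_norm_tendsto_zero]
    refine hω.congr fun N => ?_
    rw [norm_div, Complex.norm_natCast]
    congr 2
    refine sum_congr rfl fun n _ => ?_
    rw [show η * s n * ξ ω = η * ξ ω * s n by ring]
    rfl
  · intro η hη θ hθ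
    have h1 : ∀ h : ℕ, ∀ᵐ ω ∂P, 1 ≤ h → Tendsto (fun N : ℕ =>
        ‖∑ n ∈ Icc 1 N, ee (h * (η * ξ ω * s n + θ n ω))‖ / N) atTop (𝓝 0) := by
      intro h
      by_cases hh : 1 ≤ h
      · have hh0 : (h : ℝ) ≠ 0 := by
          have : h ≠ 0 := by omega
          exact_mod_cast this
        filter_upwards [H κ hκ (fun n ω => ee (h * θ n ω)) (fun n => meas_ee _ _ (hθ n) h)
          (fun n ω => (norm_ee _).le) (h * η) (mul_ne_zero hh0 hη)] with ω hω _
        refine hω.congr fun N => ?_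
        congr 2
        refine sum_congr rfl fun n _ => ?_
        rw [← ee_add]
        congr 1
        ring
      · exact Eventually.of_forall fun ω h => absurd h hh
    filter_upwards [ae_all_iff.2 h1] with ω hω
    exact equi_of_weyl _ fun k hk => hω k hk
  · intro m η hη θ hθ
    have h1 : ∀ k : Fin m → ℤ, ∀ᵐ ω ∂P, k ≠ 0 → Tendsto (fun N : ℕ =>
        ‖∑ n ∈ Icc 1 N, ee (∑ i, k i * (η i * ξ ω * s n + θ n i ω))‖ / N) atTop (𝓝 0) := by
      intro k
      by_cases hk : k ≠ 0
      · have ha : (∑ i, k i * η i) ≠ 0 := by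
          intro h0
          apply hk
          rw [Fintype.linearIndependent_iff] at hη
          have h2 := hη (fun i => (k i : ℚ)) (by
            rw [← h0]
            refine sum_congr rfl fun i _ => ?_
            rw [Algebra.smul_def]
            simp)
          funext i
          have := h2 i
          simpa using this
        filter_upwards [H κ hκ (fun n ω => ee (∑ i, k i * θ n i ω))
          (fun n => meas_ee_sum _ _ (hθ n) k) (fun n ω => (norm_ee _).le)
          (∑ i, k i * η i) ha] with ω hω _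
        refine hω.congr fun N => ?_
        congr 2
        refine sum_congr rfl fun n _ => ?_
        rw [← ee_add]
        congr 1
        rw [sum_mul, sum_mul, ← sum_add_distrib]
        refine sum_congr rfl fun i _ => ?_
        ring
      · exact Eventually.of_forall fun ω h => absurd h hk
    filter_upwards [ae_all_iff.2 h1] with ω hω
    exact equiTorus_of_weyl _ fun k hk => hω k hk

/-- digits before `κ n` are before `κ' log |s n| / log b` -/
lemma before_pow {Ω : Type} (D : ℕ → Ω → ℝ) (b : ℝ) (hb : 1 < b) (c t : ℝ) (hc : c ≠ 0)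
    (ht : 1 < t) (s : ℕ → ℝ) (hs : Tendsto (fun n : ℕ => s n / (c * t ^ n)) atTop (𝓝 1)) (κ : ℝ)
    (hκ : κ < Real.log t / Real.log b) : ∃ κ' : ℝ, κ' < 1 ∧ ∀ᶠ n : ℕ in atTop,
      Before D (κ * n) ≤ Before D (κ' * (Real.log |s n| / Real.log b)) := by
  have hlb : 0 < Real.log b := Real.log_pos hb
  have hlt : 0 < Real.log t := Real.log_pos ht
  obtain ⟨α, hα⟩ : ∃ α : ℝ, α = Real.log t / Real.log b := ⟨_, rfl⟩
  have hα0 : 0 < α := by rw [hα]; positivity
  rw [← hα] at hκ
  obtain ⟨κp, hκp⟩ : ∃ κp : ℝ, κp = max κ 0 := ⟨_, rfl⟩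
  have h1 : κ ≤ κp := by rw [hκp]; exact le_max_left _ _
  have h2 : 0 ≤ κp := by rw [hκp]; exact le_max_right _ _
  have h3 : κp < α := by rw [hκp]; exact max_lt hκ hα0
  obtain ⟨κ', hκ'⟩ : ∃ κ' : ℝ, κ' = (κp / α + 1) / 2 := ⟨_, rfl⟩
  have h4 : κ' < 1 := by
    have : κp / α < 1 := by rw [div_lt_one hα0]; exact h3
    rw [hκ']
    linarith
  have h5 : 0 < κ' := by
    have : 0 ≤ κp / α := by positivity
    rw [hκ']
    linarith
  have h6 : κ' * α = (κp + α) / 2 := by
    rw [hκ']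
    field_simp
  refine ⟨κ', h4, ?_⟩
  obtain ⟨C, hC⟩ : ∃ C : ℝ, C = Real.log (|c| / 2) / Real.log b := ⟨_, rfl⟩
  have h7 : ∀ᶠ n : ℕ in atTop, -(κ' * C) ≤ (α - κp) / 2 * n := by
    have : Tendsto (fun n : ℕ => (α - κp) / 2 * (n : ℝ)) atTop atTop :=
      tendsto_natCast_atTop_atTop.const_mul_atTop (by linarith)
    exact this.eventually_ge_atTop _
  filter_upwards [hs.eventually (lt_mem_nhds (show (1 / 2 : ℝ) < 1 by norm_num)), h7]
    with n hn1 hn2
  apply before_mono
  have hc0 : 0 < |c| := abs_pos.2 hc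
  have htn : 0 < t ^ n := by positivity
  have h8 : |c| / 2 * t ^ n ≤ |s n| := by
    have h9 : 1 / 2 < |s n / (c * t ^ n)| := lt_of_lt_of_le hn1 (le_abs_self _)
    rw [abs_div, abs_mul, abs_of_pos htn, lt_div_iff₀ (by positivity)] at h9
    linarith
  have h10 : C + α * n ≤ Real.log |s n| / Real.log b := by
    have h11 : Real.log (|c| / 2 * t ^ n) ≤ Real.log |s n| :=
      Real.log_le_log (by positivity) h8
    rw [Real.log_mul (by positivity) (by positivity), Real.log_pow] at h11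
    rw [hC, hα, div_mul_eq_mul_div, ← add_div]
    apply div_le_div_of_nonneg_right _ hlb.le
    linarith
  have h12 := mul_le_mul_of_nonneg_left h10 h5.le
  have hn : (0 : ℝ) ≤ n := Nat.cast_nonneg n
  have h13 : κ * n ≤ κp * n := mul_le_mul_of_nonneg_right h1 hn
  have h14 : κ' * (C + α * n) = κ' * C + (κp + α) / 2 * n := by
    rw [← h6]
    ring
  rw [h14] at h12
  nlinarith

section

variable {Ω : Type} [MeasurableSpace Ω] (P : Measure Ω) [IsProbabilityMeasure P] (b : ℝ)
  (hb : 1 < b) (D : ℕ → Ω → ℝ) (hD : RB.Digits P D)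

include hb hD in
theorem main_lac (hM : S_MOD) (s : ℕ → ℝ) (hs : LacUD b s) :
    SeqOf P b D (fun ω => ∑' j, D j ω / b ^ (j + 1)) s :=
  seqOf_of P b D _ s fun κ hκ Z hZ hz a ha =>
    weyl_lacP hM P b hb D hD s hs a ha κ hκ Z (Eventually.of_forall hZ) hz

include hb hD in
/-- joint equidistribution for several bases `t` -/
theorem main_joint (hM : S_MOD) (hP : S_PERT) (hS : S_SUM) (r : ℕ) (t : Fin r → ℝ)
    (ht : Function.Injective t) (ht1 : ∀ i, 1 < t i)
    (hbt : ∀ i, Irrational (Real.log (t i) / Real.log b)) (κ : ℝ)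
    (hκ : ∀ i, κ < Real.log (t i) / Real.log b) (m : ℕ) (p : Fin m → Fin r)
    (η : Fin m → ℝ) (hη : ∀ i, LinearIndependent ℚ fun k : {k // p k = i} => η k)
    (θ : ℕ → Fin m → Ω → ℝ) (hθ : ∀ (n : ℕ) k, Measurable[Before D (κ * n)] (θ n k)) :
    ∀ᵐ ω ∂P, EquiTorus fun n k => η k * (∑' j, D j ω / b ^ (j + 1)) * t (p k) ^ n + θ n k ω := by
  classical
  have h1 : ∀ k : Fin m → ℤ, ∀ᵐ ω ∂P, k ≠ 0 → Tendsto (fun N : ℕ =>
      ‖∑ n ∈ Icc 1 N, ee (∑ l, k l * (η l * (∑' j, D j ω / b ^ (j + 1)) * t (p l) ^ n +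
        θ n l ω))‖ / N) atTop (𝓝 0) := by
    intro k
    by_cases hk : k ≠ 0
    · obtain ⟨c, hc⟩ : ∃ c : Fin r → ℝ, c = fun i => ∑ l, if p l = i then (k l : ℝ) * η l else 0 :=
        ⟨_, rfl⟩
      have hc0 : ∃ i, c i ≠ 0 := by
        by_contra hcon
        push Not at hcon
        apply hk
        funext l
        have h2 := hcon (p l)
        have h3 := (Fintype.linearIndependent_iff.1 (hη (p l))) (fun l' => ((k l' : ℤ) : ℚ)) (by
          rw [hc] at h2
          simp only at h2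
          rw [← h2, ← Finset.sum_filter]
          rw [Finset.sum_subtype (Finset.univ.filter fun l' => p l' = p l)
            (p := fun l' => p l' = p l) (by intro x; simp)
            (f := fun l' => (k l' : ℝ) * η l')]
          refine sum_congr rfl fun l' _ => ?_
          rw [Algebra.smul_def]
          simp)
        have h4 := h3 ⟨l, rfl⟩
        simpa using h4
      obtain ⟨i0, hi0, hlim⟩ := hS r t c ht ht1 hc0
      have hlac := hP b (c i0) (t i0) (fun n => ∑ j, c j * t j ^ n) hb hi0 (ht1 i0) (hbt i0) hlim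
      obtain ⟨κ', hκ', hbef⟩ := before_pow D b hb (c i0) (t i0) hi0 (ht1 i0) _ hlim κ (hκ i0)
      have h2 := weyl_lacP hM P b hb D hD _ hlac 1 one_ne_zero κ' hκ'
        (fun n ω => ee (∑ l, k l * θ n l ω)) (by
          filter_upwards [hbef] with n hn
          exact (meas_ee_sum _ _ (hθ n) k).mono hn le_rfl) (fun n ω => (norm_ee _).le)
      filter_upwards [h2] with ω hω _
      refine hω.congr fun N => ?_
      congr 2
      refine sum_congr rfl fun n _ => ?_
      rw [← ee_add]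
      congr 1
      have h5 : ∑ j, c j * t j ^ n = ∑ l, (k l : ℝ) * η l * t (p l) ^ n := by
        rw [hc]
        simp only [Finset.sum_mul]
        rw [Finset.sum_comm]
        refine sum_congr rfl fun l _ => ?_
        rw [Finset.sum_eq_single (p l)]
        · rw [if_pos rfl]
        · intro i _ hi
          rw [if_neg (Ne.symm hi), zero_mul]
        · intro h
          exact absurd (mem_univ _) h
      rw [h5, one_mul, Finset.sum_mul, ← sum_add_distrib]
      refine sum_congr rfl fun l _ => ?_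
      ring
    · exact Eventually.of_forall fun ω h => absurd h hk
  filter_upwards [ae_all_iff.2 h1] with ω hω
  exact equiTorus_of_weyl _ fun k hk => hω k hk

include hb hD in
/-- joint complete equidistribution for several transcendental bases `t` -/
theorem main_windows (hM : S_MOD) (hP : S_PERT) (hS : S_SUM) (r : ℕ) (t : Fin r → ℝ)
    (ht : Function.Injective t) (ht1 : ∀ i, 1 < t i)
    (hbt : ∀ i, Irrational (Real.log (t i) / Real.log b)) (htr : ∀ i, Transcendental ℚ (t i))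
    (κ : ℝ) (hκ : ∀ i, κ < Real.log (t i) / Real.log b)
    (η : Fin r → ℝ) (hη : ∀ i, η i ≠ 0) (θ : ℕ → Fin r × ℕ → Ω → ℝ)
    (hθ : ∀ (n : ℕ) q, Measurable[Before D (κ * n)] (θ n q)) :
    ∀ᵐ ω ∂P, ∀ (m : ℕ) (p : Fin m → Fin r × ℕ), Function.Injective p → EquiTorus fun n k =>
      η (p k).1 * (∑' j, D j ω / b ^ (j + 1)) * t (p k).1 ^ (n + (p k).2) + θ n (p k) ω := by
  rw [ae_all_iff]
  intro m
  rw [ae_all_iff]
  intro p
  by_cases hp : Function.Injective p
  · have h1 := main_joint P b hb D hD hM hP hS r t ht ht1 hbt κ hκ m (fun k => (p k).1)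
      (fun k => η (p k).1 * t (p k).1 ^ (p k).2) (fun i => ?_) (fun n k => θ n (p k))
      (fun n k => hθ n (p k))
    · filter_upwards [h1] with ω hω _
      have e : (fun (n : ℕ) (k : Fin m) => η (p k).1 * (∑' j, D j ω / b ^ (j + 1)) *
          t (p k).1 ^ (n + (p k).2) + θ n (p k) ω) = fun (n : ℕ) (k : Fin m) =>
          η (p k).1 * t (p k).1 ^ (p k).2 * (∑' j, D j ω / b ^ (j + 1)) * t (p k).1 ^ n +
            θ n (p k) ω := by
        funext n k
        rw [pow_add]
        ring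
      rw [e]
      exact hω
    · have h2 := lin_powG (κ := {k : Fin m // (p k).1 = i}) (t i) (htr i)
        (fun k => (p k.1).2) (fun k k' hkk => by
          apply Subtype.ext
          apply hp
          apply Prod.ext
          · rw [k.2, k'.2]
          · exact hkk) (η i) (hη i)
      have e : (fun k : {k : Fin m // (p k).1 = i} => η (p k.1).1 * t (p k.1).1 ^ (p k.1).2) =
          fun k : {k : Fin m // (p k).1 = i} => η i * t i ^ (p k.1).2 := by
        funext k
        rw [k.2]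
      rw [e]
      exact h2
  · exact Eventually.of_forall fun ω h => absurd h hp

end

end Pool.Agent.R430.RP
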